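import Mathlib
import Pool.Agent.V11102.PA.Env

/-!
Density of the norm attaining operators does not pass to one-complemented subspaces of the domain.
-/

set_option autoImplicit false

namespace Pool.Agent.Results.MP_5ffaeb_an.NADensityNotInherited

open scoped ENNReal ZeroAtInfty
open Filter Topology

/-- The set of the norm attaining operators from `X` to `Y`. -/
def NA (𝕜 X Y : Type*) [RCLike 𝕜] [NormedAddCommGroup X] [NormedSpace 𝕜 X]
    [NormedAddCommGroup Y] [NormedSpace 𝕜 Y] : Set (X →L[𝕜] Y) :=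
  {T | ∃ x : X, ‖x‖ = 1 ∧ ‖T x‖ = ‖T‖}

/-- The subspace `X₁` is the range of a linear projection of `X` of norm at most one. -/
def OneComplemented {𝕜 X : Type*} [RCLike 𝕜] [NormedAddCommGroup X] [NormedSpace 𝕜 X]
    (X₁ : Submodule 𝕜 X) : Prop :=
  ∃ P : X →L[𝕜] X, ‖P‖ ≤ 1 ∧ (∀ x, P x ∈ X₁) ∧ ∀ x ∈ X₁, P x = x

/-! ### The target space -/

section Target

variable (𝕜 : Type*) [RCLike 𝕜]

/-- the Hilbert space -/
abbrev H : Type _ := lp (fun _ : ℕ => 𝕜) 2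

/-- the space of null sequences -/
abbrev C0 : Type _ := C₀(ℕ, 𝕜)

variable {𝕜}

theorem coord_le (f : C0 𝕜) (n : ℕ) : ‖f n‖ ≤ ‖f‖ := by
  rw [← ZeroAtInftyContinuousMap.norm_toBCF_eq_norm]
  exact f.toBCF.norm_coe_le_norm n

theorem norm_le_of (f : C0 𝕜) {C : ℝ} (hC : 0 ≤ C) (h : ∀ n, ‖f n‖ ≤ C) : ‖f‖ ≤ C := by
  rw [← ZeroAtInftyContinuousMap.norm_toBCF_eq_norm]
  exact (BoundedContinuousFunction.norm_le hC).mpr h

theorem tendsto_zero (f : C0 𝕜) : Tendsto (fun n => f n) atTop (𝓝 0) := by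
  have := f.zero_at_infty'
  rwa [Filter.cocompact_eq_cofinite, Nat.cofinite_eq_atTop] at this

/-- the unit vectors -/
noncomputable def e (n : ℕ) : C0 𝕜 where
  toFun := Pi.single n 1
  continuous_toFun := continuous_of_discreteTopology
  zero_at_infty' := by
    rw [Filter.cocompact_eq_cofinite, Nat.cofinite_eq_atTop]
    apply tendsto_const_nhds.congr'
    filter_upwards [eventually_gt_atTop n] with m hm
    rw [Pi.single_apply, if_neg hm.ne']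

theorem e_apply (n m : ℕ) : (e n : C0 𝕜) m = if m = n then 1 else 0 := by
  show (Pi.single n 1 : ℕ → 𝕜) m = _
  rw [Pi.single_apply]

theorem norm_e_le (n : ℕ) : ‖(e n : C0 𝕜)‖ ≤ 1 := by
  apply norm_le_of _ zero_le_one
  intro m
  rw [e_apply]
  split_ifs
  · rw [norm_one]
  · rw [norm_zero]; exact zero_le_one

theorem sq_bound (f : C0 𝕜) (s : Finset ℕ) :
    ∑ n ∈ s, ‖(2⁻¹ : 𝕜) ^ n * f n‖ ^ 2 ≤ (2 * ‖f‖) ^ 2 := by
  have h1 : ∀ n ∈ s, ‖(2⁻¹ : 𝕜) ^ n * f n‖ ^ 2 ≤ (1 / 2) ^ n * ‖f‖ ^ 2 := by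
    intro n _
    rw [norm_mul, norm_pow, norm_inv, RCLike.norm_ofNat, mul_pow]
    apply mul_le_mul _ (pow_le_pow_left₀ (norm_nonneg _) (coord_le f n) 2) (by positivity)
      (by positivity)
    rw [← pow_mul, one_div, mul_comm n 2, pow_mul]
    apply pow_le_pow_left₀ (by positivity)
    norm_num
  refine (Finset.sum_le_sum h1).trans ?_
  rw [← Finset.sum_mul]
  have h2 : ∑ n ∈ s, (1 / 2 : ℝ) ^ n ≤ 2 := by
    have h3 := summable_geometric_two.sum_le_tsum s (fun n _ => by positivity)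
    rwa [tsum_geometric_two] at h3
  nlinarith [sq_nonneg ‖f‖]

theorem memD (f : C0 𝕜) : Memℓp (fun n => (2⁻¹ : 𝕜) ^ n * f n) 2 := by
  apply memℓp_gen' (C := (2 * ‖f‖) ^ 2)
  intro s
  have := sq_bound f s
  simpa using this

/-- an injective operator from `c₀` to `ℓ²` -/
noncomputable def D : C0 𝕜 →L[𝕜] H 𝕜 :=
  LinearMap.mkContinuous
    { toFun := fun f => (⟨fun n => (2⁻¹ : 𝕜) ^ n * f n, memD f⟩ : H 𝕜)
      map_add' := fun f g => by
        ext n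
        show (2⁻¹ : 𝕜) ^ n * (f n + g n) = (2⁻¹ : 𝕜) ^ n * f n + (2⁻¹ : 𝕜) ^ n * g n
        ring
      map_smul' := fun c f => by
        ext n
        show (2⁻¹ : 𝕜) ^ n * (c * f n) = c * ((2⁻¹ : 𝕜) ^ n * f n)
        ring } 2 (fun f => by
      apply lp.norm_le_of_forall_sum_le (by norm_num) (by positivity)
      intro s
      have := sq_bound f s
      simpa using this)

theorem D_inj (f : C0 𝕜) (h : D f = 0) : f = 0 := by
  ext n
  have h1 : D f n = 0 := by rw [h]; rfl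
  have h2 : (2⁻¹ : 𝕜) ^ n * f n = 0 := h1
  rcases mul_eq_zero.mp h2 with h3 | h3
  · exact absurd h3 (pow_ne_zero _ (inv_ne_zero two_ne_zero))
  · rw [h3]; rfl

/-- the graph map into `c₀ ⊕₂ ℓ²` -/
noncomputable def G : C0 𝕜 →L[𝕜] WithLp 2 (C0 𝕜 × H 𝕜) :=
  LinearMap.mkContinuous
    { toFun := fun f => WithLp.toLp 2 (f, D f)
      map_add' := fun f g => by rw [map_add]; rfl
      map_smul' := fun c f => by rw [map_smul]; rfl } (1 + ‖(D : C0 𝕜 →L[𝕜] H 𝕜)‖) (fun f => by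
      have h1 := WithLp.prod_norm_sq_eq_of_L2 (WithLp.toLp 2 (f, (D f : H 𝕜)))
      have h2 := (D : C0 𝕜 →L[𝕜] H 𝕜).le_opNorm f
      have h3 : ‖(WithLp.toLp 2 (f, (D f : H 𝕜)))‖ ^ 2 ≤
          ((1 + ‖(D : C0 𝕜 →L[𝕜] H 𝕜)‖) * ‖f‖) ^ 2 := by
        rw [h1]
        show ‖f‖ ^ 2 + ‖D f‖ ^ 2 ≤ _
        have h4 := norm_nonneg f
        have h5 := norm_nonneg (D f)
        have h6 := norm_nonneg (D : C0 𝕜 →L[𝕜] H 𝕜)
        have h7 : ‖D f‖ ^ 2 ≤ (‖(D : C0 𝕜 →L[𝕜] H 𝕜)‖ * ‖f‖) ^ 2 :=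
          pow_le_pow_left₀ h5 h2 2
        nlinarith [mul_nonneg h6 (sq_nonneg ‖f‖)]
      exact le_of_sq_le_sq h3 (by positivity))

variable (𝕜) in
/-- the target space: the graph of `D`, a closed subspace of `c₀ ⊕₂ ℓ²` -/
noncomputable def Y : Submodule 𝕜 (WithLp 2 (C0 𝕜 × H 𝕜)) where
  carrier := {p | D p.fst = p.snd}
  add_mem' := fun {a b} ha hb => by
    show D (a.fst + b.fst) = a.snd + b.snd
    rw [map_add]
    exact congrArg₂ (· + ·) ha hb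
  zero_mem' := by
    show D (0 : C0 𝕜) = 0
    rw [map_zero]
  smul_mem' := fun c a ha => by
    show D (c • a.fst) = c • a.snd
    rw [map_smul]
    exact congrArg (c • ·) ha

theorem isClosed_Y : IsClosed (Y 𝕜 : Set (WithLp 2 (C0 𝕜 × H 𝕜))) := by
  apply isClosed_eq
  · exact D.continuous.comp (WithLp.prod_continuous_ofLp 2 _ _).fst
  · exact (WithLp.prod_continuous_ofLp 2 _ _).snd

variable (𝕜) in
/-- the target space as a type -/
def YT : Type _ := Y 𝕜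

noncomputable instance : NormedAddCommGroup (YT 𝕜) := inferInstanceAs (NormedAddCommGroup (Y 𝕜))
noncomputable instance : NormedSpace 𝕜 (YT 𝕜) := inferInstanceAs (NormedSpace 𝕜 (Y 𝕜))

instance : CompleteSpace (YT 𝕜) := isClosed_Y.completeSpace_coe

/-- the inclusion -/
noncomputable def inc : YT 𝕜 →ₗᵢ[𝕜] WithLp 2 (C0 𝕜 × H 𝕜) := (Y 𝕜).subtypeₗᵢ

theorem inc_mem (p : YT 𝕜) : D (inc p).fst = (inc p).snd := Subtype.property (p := fun q => q ∈ Y 𝕜) p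

theorem norm_sq (p : WithLp 2 (C0 𝕜 × H 𝕜)) : ‖p‖ ^ 2 = ‖p.fst‖ ^ 2 + ‖p.snd‖ ^ 2 :=
  WithLp.prod_norm_sq_eq_of_L2 p

theorem mid (a b : C0 𝕜) : 2 * ‖a‖ ≤ ‖a + b‖ + ‖a - b‖ := by
  have h3 : (2 : 𝕜) • a = (a + b) + (a - b) := by
    ext n
    show (2 : 𝕜) * a n = (a n + b n) + (a n - b n)
    ring
  have h4 := norm_add_le (a + b) (a - b)
  rw [← h3, norm_smul, RCLike.norm_ofNat] at h4
  exact h4

/-- the key convexity property of the norm of `Y` -/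
theorem strict {p q : YT 𝕜} (h1 : ‖p + q‖ ≤ ‖p‖) (h2 : ‖p - q‖ ≤ ‖p‖) : q = 0 := by
  rw [← inc.norm_map, ← inc.norm_map p, map_add] at h1
  rw [← inc.norm_map, ← inc.norm_map p, map_sub] at h2
  have h0 := inc_mem q
  have hq : inc q = 0 → q = 0 := fun h => inc.injective (by rw [h, map_zero])
  apply hq
  clear hq
  generalize inc p = P at *
  generalize inc q = Q at *
  have e1 : ‖P + Q‖ ^ 2 = ‖P.fst + Q.fst‖ ^ 2 + ‖P.snd + Q.snd‖ ^ 2 := norm_sq (P + Q)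
  have e2 : ‖P - Q‖ ^ 2 = ‖P.fst - Q.fst‖ ^ 2 + ‖P.snd - Q.snd‖ ^ 2 := norm_sq (P - Q)
  have e3 := norm_sq P
  have e4 := parallelogram_law_with_norm 𝕜 P.snd Q.snd
  have e5 := mid P.fst Q.fst
  have h3 : ‖P + Q‖ ^ 2 ≤ ‖P‖ ^ 2 := pow_le_pow_left₀ (norm_nonneg _) h1 2
  have h4 : ‖P - Q‖ ^ 2 ≤ ‖P‖ ^ 2 := pow_le_pow_left₀ (norm_nonneg _) h2 2
  have h5 : ‖Q.snd‖ ^ 2 ≤ 0 := by
    nlinarith [sq_nonneg (‖P.fst + Q.fst‖ - ‖P.fst - Q.fst‖), norm_nonneg P.fst,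
      norm_nonneg (P.fst + Q.fst), norm_nonneg (P.fst - Q.fst)]
  have h7 : ‖Q.snd‖ = 0 := by
    have h8 := norm_nonneg Q.snd
    nlinarith
  have h6 : Q.snd = 0 := norm_eq_zero.mp h7
  have h9 : Q.fst = 0 := D_inj _ (by rw [← h6]; exact h0)
  have h8 : ‖Q‖ ^ 2 = 0 := by
    rw [norm_sq, h6, h9, norm_zero, norm_zero]; norm_num
  exact norm_eq_zero.mp (pow_eq_zero_iff two_ne_zero |>.mp h8)

/-- a norm attaining operator from `c₀` to `Y` kills all but finitely many unit vectors -/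
theorem kills (T : C0 𝕜 →L[𝕜] YT 𝕜) (hT : T ∈ NA 𝕜 (C0 𝕜) (YT 𝕜)) : ∃ n, T (e n) = 0 := by
  obtain ⟨x, hx, hTx⟩ := hT
  have h1 := (tendsto_zero x).norm
  rw [norm_zero] at h1
  obtain ⟨n, hn⟩ := (h1.eventually (gt_mem_nhds (show (0 : ℝ) < 1 / 2 by norm_num))).exists
  refine ⟨n, ?_⟩
  have key : ∀ c : 𝕜, ‖c‖ ≤ 1 / 2 → ‖x + c • e n‖ ≤ 1 := by
    intro c hc
    apply norm_le_of _ zero_le_one
    intro m
    show ‖x m + c * (e n : C0 𝕜) m‖ ≤ 1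
    rw [e_apply]
    split_ifs with h
    · subst h
      rw [mul_one]
      exact (norm_add_le _ _).trans (by linarith)
    · rw [mul_zero, add_zero, ← hx]
      exact coord_le x m
  have h2 : T ((2⁻¹ : 𝕜) • e n) = 0 := by
    apply strict (p := T x)
    · rw [← map_add, hTx]
      refine (T.le_opNorm _).trans (mul_le_of_le_one_right (norm_nonneg _) (key _ ?_))
      rw [norm_inv, RCLike.norm_ofNat]; norm_num
    · rw [← map_sub, hTx, sub_eq_add_neg]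
      rw [show -((2⁻¹ : 𝕜) • (e n : C0 𝕜)) = (-(2⁻¹ : 𝕜)) • (e n : C0 𝕜) from (neg_smul _ _).symm]
      refine (T.le_opNorm _).trans (mul_le_of_le_one_right (norm_nonneg _) (key _ ?_))
      rw [norm_neg, norm_inv, RCLike.norm_ofNat]; norm_num
  rw [map_smul] at h2
  rcases smul_eq_zero.mp h2 with h3 | h3
  · exact absurd h3 (inv_ne_zero two_ne_zero)
  · exact h3

/-- the canonical operator -/
noncomputable def T0 : C0 𝕜 →L[𝕜] YT 𝕜 :=
  LinearMap.mkContinuous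
    { toFun := fun f => (⟨G f, rfl⟩ : Y 𝕜)
      map_add' := fun f g => Subtype.ext (map_add G f g)
      map_smul' := fun c f => Subtype.ext (map_smul G c f) } ‖(G : C0 𝕜 →L[𝕜] _)‖
    (fun f => by
      have h1 := (G : C0 𝕜 →L[𝕜] _).le_opNorm f
      exact h1)

theorem inc_T0 (f : C0 𝕜) : inc (T0 f) = G f := rfl

theorem norm_T0_e (n : ℕ) : 1 ≤ ‖(T0 (e n) : YT 𝕜)‖ := by
  have h1 : ‖(T0 (e n) : YT 𝕜)‖ ^ 2 = ‖(e n : C0 𝕜)‖ ^ 2 + ‖D (e n : C0 𝕜)‖ ^ 2 := by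
    rw [← inc.norm_map, inc_T0]
    exact norm_sq (G (e n : C0 𝕜))
  have h2 : 1 ≤ ‖(e n : C0 𝕜)‖ := by
    have h3 := coord_le (e n : C0 𝕜) n
    rwa [e_apply, if_pos rfl, norm_one] at h3
  have h4 : (1 : ℝ) ^ 2 ≤ ‖(T0 (e n) : YT 𝕜)‖ ^ 2 := by
    rw [h1]
    nlinarith [sq_nonneg ‖D (e n : C0 𝕜)‖]
  exact le_of_sq_le_sq h4 (norm_nonneg _)

theorem far (S : C0 𝕜 →L[𝕜] YT 𝕜) (hS : S ∈ NA 𝕜 (C0 𝕜) (YT 𝕜)) :
    1 ≤ ‖S - (T0 : C0 𝕜 →L[𝕜] YT 𝕜)‖ := by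
  obtain ⟨n, hn⟩ := kills S hS
  have h1 := (S - (T0 : C0 𝕜 →L[𝕜] YT 𝕜)).le_opNorm (e n)
  have h2 : (S - (T0 : C0 𝕜 →L[𝕜] YT 𝕜)) (e n) = - (T0 : C0 𝕜 →L[𝕜] YT 𝕜) (e n) := by
    show S (e n) - T0 (e n) = _
    rw [hn, zero_sub]
  rw [h2, norm_neg] at h1
  exact (norm_T0_e n).trans (h1.trans (mul_le_of_le_one_right (norm_nonneg _) (norm_e_le n)))

end Target

open Pool.Agent.V11102.PA (Env J Pr Pr_J norm_Pr_le dense)

/-- Over each of the scalar fields `ℝ`, `ℂ` there are Banach spaces `X`, `Y` and a closed subspace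
`X₁` of `X`, the range of a projection of norm at most one, such that the norm attaining operators
are dense in `L(X, Y)` but not in `L(X₁, Y)`. -/
theorem result.{u} (𝕜 : Type u) [RCLike 𝕜] :
    ∃ (X : Type u) (_ : NormedAddCommGroup X) (_ : NormedSpace 𝕜 X) (_ : CompleteSpace X)
      (Y : Type u) (_ : NormedAddCommGroup Y) (_ : NormedSpace 𝕜 Y) (_ : CompleteSpace Y)
      (X₁ : Submodule 𝕜 X), IsClosed (X₁ : Set X) ∧ OneComplemented X₁ ∧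
      Dense (NA 𝕜 X Y) ∧ ¬ Dense (NA 𝕜 X₁ Y) := by
  refine ⟨Env 𝕜 (C0 𝕜), inferInstance, inferInstance, inferInstance, YT 𝕜, inferInstance,
    inferInstance, inferInstance, LinearMap.range (J 𝕜 (C0 𝕜)).toLinearMap, ?_, ?_, ?_, ?_⟩
  · rw [LinearMap.coe_range]
    exact (J 𝕜 (C0 𝕜)).isometry.isClosedEmbedding.isClosed_range
  · refine ⟨(J 𝕜 (C0 𝕜)).toContinuousLinearMap.comp (Pr 𝕜 (C0 𝕜)), ?_, ?_, ?_⟩
    · apply ContinuousLinearMap.opNorm_le_bound _ zero_le_one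
      intro x
      show ‖J 𝕜 (C0 𝕜) (Pr 𝕜 (C0 𝕜) x)‖ ≤ 1 * ‖x‖
      rw [LinearIsometry.norm_map]
      exact ((Pr 𝕜 (C0 𝕜)).le_opNorm x).trans
        (mul_le_mul_of_nonneg_right (norm_Pr_le 𝕜 (C0 𝕜)) (norm_nonneg _))
    · intro x
      exact ⟨Pr 𝕜 (C0 𝕜) x, rfl⟩
    · rintro _ ⟨y, rfl⟩
      show J 𝕜 (C0 𝕜) (Pr 𝕜 (C0 𝕜) (J 𝕜 (C0 𝕜) y)) = J 𝕜 (C0 𝕜) y
      rw [Pr_J]
  · rw [Metric.dense_iff]
    intro T r hr
    have h1 : ‖(e 0 : C0 𝕜)‖ = 1 := by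
      apply le_antisymm (norm_e_le 0)
      have h3 := coord_le (e 0 : C0 𝕜) 0
      rwa [e_apply, if_pos rfl, norm_one] at h3
    rcases eq_or_ne T 0 with rfl | hT
    · refine ⟨0, Metric.mem_ball_self hr, J 𝕜 (C0 𝕜) (e 0), ?_, ?_⟩
      · rw [LinearIsometry.norm_map, h1]
      · rw [zero_apply, norm_zero]
        exact norm_zero.symm
    · obtain ⟨S, hS, x, hx1, hx2⟩ := dense 𝕜 (C0 𝕜) T hT (half_pos hr)
      refine ⟨S, ?_, x, hx1, hx2⟩
      rw [Metric.mem_ball, dist_eq_norm]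
      exact lt_of_le_of_lt hS (half_lt_self hr)
  · intro hd
    rw [Metric.dense_iff] at hd
    let X₁ : Submodule 𝕜 (Env 𝕜 (C0 𝕜)) := LinearMap.range (J 𝕜 (C0 𝕜)).toLinearMap
    let T₁ : X₁ →L[𝕜] YT 𝕜 := T0.comp ((Pr 𝕜 (C0 𝕜)).comp X₁.subtypeL)
    obtain ⟨S₁, hS1, y, hy1, hy2⟩ := hd T₁ 1 one_pos
    rw [Metric.mem_ball, dist_eq_norm] at hS1
    let J' : C0 𝕜 →L[𝕜] X₁ := LinearMap.mkContinuous
      { toFun := fun x => ⟨J 𝕜 (C0 𝕜) x, x, rfl⟩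
        map_add' := fun a b => Subtype.ext (map_add _ a b)
        map_smul' := fun c a => Subtype.ext (map_smul _ c a) } 1 (fun x => by
          rw [one_mul]
          exact ((J 𝕜 (C0 𝕜)).norm_map x).le)
    have hJ' : ∀ x, ‖J' x‖ = ‖x‖ := fun x => (J 𝕜 (C0 𝕜)).norm_map x
    have hT : ∀ x, T₁ (J' x) = T0 x := by
      intro x
      show T0 (Pr 𝕜 (C0 𝕜) (J 𝕜 (C0 𝕜) x)) = T0 x
      rw [Pr_J]
    have hna : S₁.comp J' ∈ NA 𝕜 (C0 𝕜) (YT 𝕜) := by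
      obtain ⟨_, x, rfl⟩ := y
      have hx : ‖x‖ = 1 := by
        rw [← hJ' x]; exact hy1
      refine ⟨x, hx, ?_⟩
      apply le_antisymm
      · refine ((S₁.comp J').le_opNorm x).trans ?_
        rw [hx, mul_one]
      · have h1 : ‖S₁.comp J'‖ ≤ ‖S₁‖ := by
          apply ContinuousLinearMap.opNorm_le_bound _ (norm_nonneg _)
          intro z
          have h5 := S₁.le_opNorm (J' z)
          rw [hJ'] at h5
          exact h5
        rw [← hy2] at h1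
        exact h1
    have h2 := far (S₁.comp J') hna
    have h4 : ‖S₁.comp J' - (T0 : C0 𝕜 →L[𝕜] YT 𝕜)‖ ≤ ‖S₁ - T₁‖ := by
      apply ContinuousLinearMap.opNorm_le_bound _ (norm_nonneg _)
      intro z
      have h5 := (S₁ - T₁).le_opNorm (J' z)
      rw [hJ'] at h5
      have h6 : (S₁ - T₁) (J' z) = (S₁.comp J' - (T0 : C0 𝕜 →L[𝕜] YT 𝕜)) z := by
        show S₁ (J' z) - T₁ (J' z) = S₁ (J' z) - T0 z
        rw [hT]
      rw [← h6]
      exact h5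
    linarith

end Pool.Agent.Results.MP_5ffaeb_an.NADensityNotInherited
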